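import Mathlib

/-!
# Counting permutations by the order of some of their entries
-/

set_option autoImplicit false

namespace Pool.Agent.Helper34.TYP

open Finset

/-- a strictly monotone permutation of a finite linear order is the identity -/
theorem perm_eq_one {α : Type*} [LinearOrder α] [Finite α] {τ : Equiv.Perm α}
    (h : StrictMono τ) : τ = 1 := by
  have h' : StrictMono τ.symm := by
    intro a b hab
    by_contra hcon
    have h1 := h.monotone (not_lt.1 hcon)
    rw [Equiv.apply_symm_apply, Equiv.apply_symm_apply] at h1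
    exact absurd hab (not_lt.2 h1)
  ext x
  have h1 : x ≤ τ x := h.le_apply
  have h2 : x ≤ τ.symm x := h'.le_apply
  have h3 := h.monotone h2
  rw [Equiv.apply_symm_apply] at h3
  simp only [Equiv.Perm.coe_one, id_eq]
  exact le_antisymm h3 h1

/-- the entries in `A` stand in decreasing order -/
def Decr {m : ℕ} (A : Finset (Fin m)) (π : Equiv.Perm (Fin m)) : Prop :=
  ∀ a ∈ A, ∀ b ∈ A, a < b → π.symm b < π.symm a

open Classical in
theorem card_decr {m : ℕ} (A : Finset (Fin m)) :
    A.card.factorial * (univ.filter (fun π : Equiv.Perm (Fin m) => Decr A π)).card ≤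
      m.factorial := by
  classical
  have h1 : Fintype.card (Equiv.Perm {x // x ∈ A}) = A.card.factorial := by
    rw [Fintype.card_perm, Fintype.card_coe]
  have h2 : Fintype.card (Equiv.Perm (Fin m)) = m.factorial := by
    rw [Fintype.card_perm, Fintype.card_fin]
  rw [← h1, ← h2, ← card_univ, ← card_univ, ← card_product]
  refine card_le_card_of_injOn (fun p => Equiv.Perm.ofSubtype p.1 * p.2) (fun _ _ => mem_univ _) ?_
  rintro ⟨σ, π⟩ hp ⟨σ', π'⟩ hp' heq
  have hD : Decr A π := (mem_filter.1 (mem_product.1 hp).2).2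
  have hD' : Decr A π' := (mem_filter.1 (mem_product.1 hp').2).2
  simp only at heq
  -- `τ = σ'⁻¹ σ`
  obtain ⟨τ, hτ⟩ : ∃ τ : Equiv.Perm {x // x ∈ A}, τ = σ⁻¹ * σ' := ⟨_, rfl⟩
  have h3 : π = Equiv.Perm.ofSubtype τ * π' := by
    rw [hτ, map_mul, mul_assoc, ← heq, ← mul_assoc, ← map_mul, inv_mul_cancel, map_one, one_mul]
  have hmono : StrictMono τ := by
    intro a b hab
    have h4 := hD' a.1 a.2 b.1 b.2 hab
    by_contra hcon
    have hne : τ a ≠ τ b := fun h5 => hab.ne (τ.injective h5)
    have h5 : τ b < τ a := lt_of_le_of_ne (not_lt.1 hcon) hne.symm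
    have h6 := hD (τ b).1 (τ b).2 (τ a).1 (τ a).2 h5
    have h7 : ∀ x : {x // x ∈ A}, π.symm (τ x).1 = π'.symm x.1 := by
      intro x
      rw [Equiv.symm_apply_eq, h3, Equiv.Perm.mul_apply, Equiv.apply_symm_apply,
        Equiv.Perm.ofSubtype_apply_coe]
    rw [h7, h7] at h6
    exact lt_asymm h4 h6
  have h4 := perm_eq_one hmono
  have h5 : σ = σ' := by
    rw [hτ] at h4
    exact (inv_mul_eq_one.1 h4)
  subst h5
  have h6 := mul_left_cancel heq
  rw [h6]

/-- the entry `a₀` stands before the other entries in `B` -/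
def First {m : ℕ} (B : Finset (Fin m)) (a₀ : Fin m) (π : Equiv.Perm (Fin m)) : Prop :=
  ∀ x ∈ B, x ≠ a₀ → π.symm a₀ < π.symm x

open Classical in
theorem card_first {m : ℕ} {B : Finset (Fin m)} {a₀ : Fin m} :
    B.card * (univ.filter (fun π : Equiv.Perm (Fin m) => First B a₀ π)).card ≤ m.factorial := by
  classical
  have h2 : Fintype.card (Equiv.Perm (Fin m)) = m.factorial := by
    rw [Fintype.card_perm, Fintype.card_fin]
  rw [← h2, ← card_univ, ← card_product]
  refine card_le_card_of_injOn (fun p => Equiv.swap a₀ p.1 * p.2) (fun _ _ => mem_univ _) ?_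
  have key : ∀ b ∈ B, ∀ π : Equiv.Perm (Fin m), First B a₀ π → First B b (Equiv.swap a₀ b * π) := by
    intro b hb π hπ x hx hxb
    have e : ∀ y, (Equiv.swap a₀ b * π).symm y = π.symm (Equiv.swap a₀ b y) := by
      intro y
      rw [Equiv.symm_apply_eq, Equiv.Perm.mul_apply, Equiv.apply_symm_apply, Equiv.swap_apply_self]
    rw [e, e, Equiv.swap_apply_right]
    refine hπ _ ?_ ?_
    · by_cases h3 : x = a₀
      · rw [h3, Equiv.swap_apply_left]
        exact hb
      · rw [Equiv.swap_apply_of_ne_of_ne h3 hxb]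
        exact hx
    · intro h3
      apply hxb
      have h4 := congrArg (Equiv.swap a₀ b) h3
      rwa [Equiv.swap_apply_self, Equiv.swap_apply_left] at h4
  rintro ⟨b, π⟩ hp ⟨b', π'⟩ hp' heq
  obtain ⟨hb, hπ⟩ := mem_product.1 hp
  obtain ⟨hb', hπ'⟩ := mem_product.1 hp'
  have hπ1 : First B a₀ π := (mem_filter.1 hπ).2
  have hπ1' : First B a₀ π' := (mem_filter.1 hπ').2
  simp only at heq hb hb'
  have h3 := key b hb π hπ1
  have h4 := key b' hb' π' hπ1'
  rw [← heq] at h4
  have h5 : b = b' := by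
    by_contra hne
    exact lt_asymm (h3 b' hb' (Ne.symm hne)) (h4 b hb hne)
  subst h5
  have h6 := mul_left_cancel heq
  rw [h6]

end Pool.Agent.Helper34.TYP
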