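import Pool.Agent.Helper34.TYP.Mac
import Pool.Agent.Helper49.IP.Count

/-!
# The Fisher-Ryan inequality for independent sets

`pw G j x` is the sum over the independent sets `S` with `j` elements of the product of the weights
`x v`, `v ∈ S`. If two adjacent vertices `u, v` have positive weights, then one of them can get weight
`0`, the other one a larger weight, such that `pw G a` does not change and `pw G (a + 1)` does not
decrease. At the end the support is independent and Maclaurin's inequality applies.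
-/

set_option autoImplicit false

namespace Pool.Agent.Helper34.TYP

open Finset
open Pool.Agent.Helper49.IP (indCount)

variable {V : Type*} [Fintype V]

open Classical in
/-- the independent sets with `j` elements -/
noncomputable def Ind (G : SimpleGraph V) (j : ℕ) : Finset (Finset V) :=
  univ.filter fun S => G.IsNIndepSet j S

theorem mem_Ind {G : SimpleGraph V} {j : ℕ} {S : Finset V} : S ∈ Ind G j ↔ G.IsNIndepSet j S := by
  simp [Ind]

theorem card_Ind (G : SimpleGraph V) (j : ℕ) : (Ind G j).card = indCount G j := by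
  classical
  rw [indCount, ← Set.ncard_coe_finset]
  congr 1
  ext S
  simp [mem_Ind]

/-- the weighted number of independent sets -/
noncomputable def pw (G : SimpleGraph V) (j : ℕ) (x : V → ℝ) : ℝ := ∑ S ∈ Ind G j, ∏ v ∈ S, x v

theorem pw_one (G : SimpleGraph V) (j : ℕ) : pw G j (fun _ => 1) = indCount G j := by
  simp [pw, card_Ind]

theorem pw_nonneg (G : SimpleGraph V) (j : ℕ) {x : V → ℝ} (hx : ∀ v, 0 ≤ x v) : 0 ≤ pw G j x :=
  sum_nonneg fun _ _ => prod_nonneg fun v _ => hx v

theorem pw_zero (G : SimpleGraph V) (x : V → ℝ) : pw G 0 x = 1 := by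
  have h : Ind G 0 = {∅} := by
    ext S
    rw [mem_Ind, mem_singleton]
    constructor
    · intro h
      exact card_eq_zero.1 h.card_eq
    · rintro rfl
      exact ⟨by simp, by simp⟩
  simp [pw, h]

variable [DecidableEq V]

/-- the part without `u, v` -/
noncomputable def pA (G : SimpleGraph V) (j : ℕ) (u v : V) (x : V → ℝ) : ℝ :=
  ∑ S ∈ (Ind G j).filter (fun S => u ∉ S ∧ v ∉ S), ∏ w ∈ S, x w

/-- the coefficient of `x u` -/
noncomputable def pB (G : SimpleGraph V) (j : ℕ) (u : V) (x : V → ℝ) : ℝ :=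
  ∑ S ∈ (Ind G j).filter (fun S => u ∈ S), ∏ w ∈ S.erase u, x w

theorem pB_nonneg (G : SimpleGraph V) (j : ℕ) (u : V) {x : V → ℝ} (hx : ∀ v, 0 ≤ x v) :
    0 ≤ pB G j u x :=
  sum_nonneg fun _ _ => prod_nonneg fun v _ => hx v

omit [DecidableEq V] in
theorem not_both {G : SimpleGraph V} {u v : V} (huv : G.Adj u v) {j : ℕ} {S : Finset V}
    (hS : S ∈ Ind G j) (hu : u ∈ S) : v ∉ S := by
  intro hv
  exact (mem_Ind.1 hS).isIndepSet (by exact_mod_cast hu) (by exact_mod_cast hv) huv.ne huv

theorem pw_split {G : SimpleGraph V} {j : ℕ} {u v : V} (huv : G.Adj u v) (x : V → ℝ) :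
    pw G j x = pA G j u v x + x u * pB G j u x + x v * pB G j v x := by
  classical
  have hB : ∀ w : V, x w * pB G j w x =
      ∑ S ∈ (Ind G j).filter (fun S => w ∈ S), ∏ z ∈ S, x z := by
    intro w
    rw [pB, mul_sum]
    refine sum_congr rfl fun S hS => ?_
    exact mul_prod_erase S x (mem_filter.1 hS).2
  rw [hB u, hB v, pA, pw]
  rw [← sum_filter_add_sum_filter_not (Ind G j) (fun S => u ∈ S)]
  rw [← sum_filter_add_sum_filter_not ((Ind G j).filter (fun S => ¬ u ∈ S)) (fun S => v ∈ S)]
  rw [filter_filter, filter_filter]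
  have h1 : (Ind G j).filter (fun S => ¬ u ∈ S ∧ v ∈ S) = (Ind G j).filter (fun S => v ∈ S) := by
    refine filter_congr fun S hS => ?_
    constructor
    · exact fun h => h.2
    · intro h
      exact ⟨not_both huv.symm hS h, h⟩
  rw [h1]
  ring

theorem pA_congr {G : SimpleGraph V} {j : ℕ} {u v : V} {x y : V → ℝ}
    (h : ∀ w, w ≠ u → w ≠ v → y w = x w) : pA G j u v y = pA G j u v x := by
  refine sum_congr rfl fun S hS => ?_
  have h1 := (mem_filter.1 hS).2
  refine prod_congr rfl fun w hw => h w ?_ ?_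
  · rintro rfl
    exact h1.1 hw
  · rintro rfl
    exact h1.2 hw

theorem pB_congr {G : SimpleGraph V} {j : ℕ} {u v : V} (huv : G.Adj u v) {x y : V → ℝ}
    (h : ∀ w, w ≠ u → w ≠ v → y w = x w) : pB G j u y = pB G j u x := by
  refine sum_congr rfl fun S hS => ?_
  have h1 := mem_filter.1 hS
  refine prod_congr rfl fun w hw => h w (ne_of_mem_erase hw) ?_
  rintro rfl
  exact not_both huv h1.1 h1.2 (mem_of_mem_erase hw)

theorem pB_zero {G : SimpleGraph V} {a : ℕ} (ha : 1 ≤ a) {u : V} {x : V → ℝ} (hx : ∀ v, 0 ≤ x v)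
    (h : pB G a u x = 0) : pB G (a + 1) u x = 0 := by
  have h1 := (sum_eq_zero_iff_of_nonneg fun S _ => prod_nonneg fun v _ => hx v).1 h
  refine sum_eq_zero fun S hS => ?_
  obtain ⟨hS1, hS2⟩ := mem_filter.1 hS
  have hS3 := mem_Ind.1 hS1
  have hne : (S.erase u).Nonempty := by
    rw [← card_pos, card_erase_of_mem hS2, hS3.card_eq]
    omega
  obtain ⟨w, hw⟩ := hne
  have hwS := mem_of_mem_erase hw
  have hwu := ne_of_mem_erase hw
  have h2 : S.erase w ∈ (Ind G a).filter (fun S => u ∈ S) := by
    refine mem_filter.2 ⟨mem_Ind.2 ⟨?_, ?_⟩, mem_erase.2 ⟨hwu.symm, hS2⟩⟩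
    · exact hS3.isIndepSet.mono (by exact_mod_cast erase_subset w S)
    · rw [card_erase_of_mem hwS, hS3.card_eq]
      omega
  have h3 := h1 _ h2
  obtain ⟨z, hz, hz0⟩ := prod_eq_zero_iff.1 h3
  refine prod_eq_zero (i := z) ?_ hz0
  exact mem_erase.2 ⟨ne_of_mem_erase hz, mem_of_mem_erase (mem_of_mem_erase hz)⟩

/-- the support -/
noncomputable def supp (x : V → ℝ) : Finset V := by
  classical exact univ.filter fun v => x v ≠ 0

omit [DecidableEq V] in
theorem mem_supp {x : V → ℝ} {v : V} : v ∈ supp x ↔ x v ≠ 0 := by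
  simp [supp]

/-- move the weight of `u` to `v` -/
theorem step_aux {G : SimpleGraph V} {x : V → ℝ} (hx : ∀ v, 0 ≤ x v) {u v : V} (huv : G.Adj u v)
    (hu : 0 < x u) (hv : 0 < x v) {a : ℕ} (ha : 1 ≤ a)
    (h : pB G (a + 1) u x * pB G a v x ≤ pB G (a + 1) v x * pB G a u x) :
    ∃ y : V → ℝ, (∀ v, 0 ≤ y v) ∧ (supp y).card < (supp x).card ∧ pw G a y = pw G a x ∧
      pw G (a + 1) x ≤ pw G (a + 1) y := by
  rcases (pB_nonneg G a v hx).eq_or_lt with h0 | h0
  · -- the weight of `v` does not matter
    have h1 := pB_zero ha hx h0.symm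
    refine ⟨Function.update x v 0, ?_, ?_, ?_, ?_⟩
    · intro w
      by_cases hw : w = v
      · rw [hw, Function.update_self]
      · rw [Function.update_of_ne hw]
        exact hx w
    · refine card_lt_card ⟨?_, ?_⟩
      · intro w hw
        rw [mem_supp] at hw ⊢
        by_cases hwv : w = v
        · rw [hwv]
          exact hv.ne'
        · rwa [Function.update_of_ne hwv] at hw
      · intro hsub
        have := hsub (mem_supp.2 hv.ne')
        rw [mem_supp, Function.update_self] at this
        exact this rfl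
    · have hc : ∀ w, w ≠ u → w ≠ v → Function.update x v 0 w = x w := fun w _ hw =>
        Function.update_of_ne hw _ _
      have hc' : ∀ w, w ≠ v → w ≠ u → Function.update x v 0 w = x w := fun w hw _ =>
        Function.update_of_ne hw _ _
      rw [pw_split huv (Function.update x v 0), pw_split huv x, pA_congr hc, pB_congr huv hc,
        pB_congr huv.symm hc', ← h0, Function.update_self, Function.update_of_ne huv.ne]
      ring
    · have hc : ∀ w, w ≠ u → w ≠ v → Function.update x v 0 w = x w := fun w _ hw =>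
        Function.update_of_ne hw _ _
      have hc' : ∀ w, w ≠ v → w ≠ u → Function.update x v 0 w = x w := fun w hw _ =>
        Function.update_of_ne hw _ _
      rw [pw_split huv (Function.update x v 0), pw_split huv x, pA_congr hc, pB_congr huv hc,
        pB_congr huv.symm hc', h1, Function.update_self, Function.update_of_ne huv.ne]
      simp
  · obtain ⟨t, ht⟩ : ∃ t : ℝ, t = x v + x u * pB G a u x / pB G a v x := ⟨_, rfl⟩
    have ht0 : 0 < t := by
      rw [ht]
      have : 0 ≤ x u * pB G a u x / pB G a v x :=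
        div_nonneg (mul_nonneg hu.le (pB_nonneg G a u hx)) h0.le
      linarith
    obtain ⟨y, hy⟩ : ∃ y : V → ℝ, y = Function.update (Function.update x u 0) v t := ⟨_, rfl⟩
    have hyv : y v = t := by
      rw [hy, Function.update_self]
    have hyu : y u = 0 := by
      rw [hy, Function.update_of_ne huv.ne, Function.update_self]
    have hyw : ∀ w, w ≠ u → w ≠ v → y w = x w := by
      intro w h1 h2
      rw [hy, Function.update_of_ne h2, Function.update_of_ne h1]
    have hyw' : ∀ w, w ≠ v → w ≠ u → y w = x w := fun w h1 h2 => hyw w h2 h1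
    refine ⟨y, ?_, ?_, ?_, ?_⟩
    · intro w
      by_cases hwu : w = u
      · rw [hwu, hyu]
      · by_cases hwv : w = v
        · rw [hwv, hyv]
          exact ht0.le
        · rw [hyw w hwu hwv]
          exact hx w
    · refine card_lt_card ⟨?_, ?_⟩
      · intro w hw
        rw [mem_supp] at hw ⊢
        by_cases hwu : w = u
        · rw [hwu]
          exact hu.ne'
        · by_cases hwv : w = v
          · rw [hwv]
            exact hv.ne'
          · rwa [hyw w hwu hwv] at hw
      · intro hsub
        have := hsub (mem_supp.2 hu.ne')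
        rw [mem_supp, hyu] at this
        exact this rfl
    · rw [pw_split huv y, pw_split huv x, pA_congr hyw, pB_congr huv hyw, pB_congr huv.symm hyw',
        hyu, hyv, ht]
      field_simp
      ring
    · rw [pw_split huv y, pw_split huv x, pA_congr hyw, pB_congr huv hyw, pB_congr huv.symm hyw',
        hyu, hyv, ht]
      have h2 : pB G (a + 1) u x ≤ pB G a u x / pB G a v x * pB G (a + 1) v x := by
        rw [div_mul_eq_mul_div, le_div_iff₀ h0]
        linarith
      have h3 := mul_le_mul_of_nonneg_left h2 hu.le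
      have h4 : (x v + x u * pB G a u x / pB G a v x) * pB G (a + 1) v x =
          x v * pB G (a + 1) v x + x u * (pB G a u x / pB G a v x * pB G (a + 1) v x) := by ring
      rw [h4]
      linarith

theorem step {G : SimpleGraph V} {x : V → ℝ} (hx : ∀ v, 0 ≤ x v) {u v : V} (huv : G.Adj u v)
    (hu : 0 < x u) (hv : 0 < x v) {a : ℕ} (ha : 1 ≤ a) :
    ∃ y : V → ℝ, (∀ v, 0 ≤ y v) ∧ (supp y).card < (supp x).card ∧ pw G a y = pw G a x ∧
      pw G (a + 1) x ≤ pw G (a + 1) y := by
  rcases le_total (pB G (a + 1) u x * pB G a v x) (pB G (a + 1) v x * pB G a u x) with h | h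
  · exact step_aux hx huv hu hv ha h
  · exact step_aux hx huv.symm hv hu ha h

omit [DecidableEq V] in
/-- independent support -/
theorem pw_supp {G : SimpleGraph V} {x : V → ℝ}
    (h : ∀ u ∈ supp x, ∀ v ∈ supp x, ¬ G.Adj u v) (j : ℕ) :
    pw G j x = ((supp x).val.map x).esymm j := by
  rw [Finset.esymm_map_val, pw]
  refine (sum_subset ?_ ?_).symm
  · intro S hS
    obtain ⟨h1, h2⟩ := mem_powersetCard.1 hS
    refine mem_Ind.2 ⟨?_, h2⟩
    intro u hu v hv _
    exact h u (h1 (by exact_mod_cast hu)) v (h1 (by exact_mod_cast hv))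
  · intro S hS hS'
    have h1 : ¬ S ⊆ supp x := fun h1 => hS' (mem_powersetCard.2 ⟨h1, (mem_Ind.1 hS).card_eq⟩)
    obtain ⟨v, hv, hv'⟩ := not_subset.1 h1
    refine prod_eq_zero hv ?_
    by_contra h2
    exact hv' (mem_supp.2 h2)

/-- the Fisher-Ryan inequality with weights, consecutive indices -/
theorem fisher_ryan {G : SimpleGraph V} {m : ℕ} (hα : G.indepNum ≤ m) {a : ℕ} (ha : a + 1 ≤ m) :
    ∀ n : ℕ, ∀ x : V → ℝ, (∀ v, 0 ≤ x v) → (supp x).card ≤ n →
      (pw G (a + 1) x / (m.choose (a + 1) : ℝ)) ^ a ≤ (pw G a x / (m.choose a : ℝ)) ^ (a + 1) := by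
  intro n
  induction n using Nat.strong_induction_on with
  | _ n ih =>
    intro x hx hn
    rcases Nat.eq_zero_or_pos a with rfl | ha'
    · simp [pw_zero]
    by_cases h : ∀ u ∈ supp x, ∀ v ∈ supp x, ¬ G.Adj u v
    · have hs : ∀ b ∈ (supp x).val.map x, 0 ≤ b := by
        intro b hb
        obtain ⟨v, _, rfl⟩ := Multiset.mem_map.1 hb
        exact hx v
      have hc : Multiset.card ((supp x).val.map x) ≤ m := by
        rw [Multiset.card_map]
        have h1 : G.IsIndepSet (supp x : Set V) := fun u hu v hv _ =>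
          h u (by exact_mod_cast hu) v (by exact_mod_cast hv)
        exact h1.card_le_indepNum.trans hα
      have h1 := maclaurin hs hc a ha
      rw [EN, EN, ← pw_supp h, ← pw_supp h] at h1
      exact h1
    · push Not at h
      obtain ⟨u, hu, v, hv, huv⟩ := h
      have hu' : 0 < x u := lt_of_le_of_ne (hx u) (mem_supp.1 hu).symm
      have hv' : 0 < x v := lt_of_le_of_ne (hx v) (mem_supp.1 hv).symm
      obtain ⟨y, hy, hyc, hy1, hy2⟩ := step hx huv hu' hv' ha'
      have h1 := ih (supp y).card (by omega) y hy le_rfl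
      rw [hy1] at h1
      refine le_trans ?_ h1
      have h2 := pw_nonneg G (a + 1) hx
      gcongr

/-- the Fisher-Ryan inequality, consecutive indices -/
theorem fisher_ryan_count {G : SimpleGraph V} {m : ℕ} (hα : G.indepNum ≤ m) {a : ℕ}
    (ha : a + 1 ≤ m) :
    ((indCount G (a + 1) : ℝ) / (m.choose (a + 1) : ℝ)) ^ a ≤
      ((indCount G a : ℝ) / (m.choose a : ℝ)) ^ (a + 1) := by
  have h := fisher_ryan hα ha _ (fun _ => (1 : ℝ)) (fun _ => zero_le_one) le_rfl
  rwa [pw_one, pw_one] at h

end Pool.Agent.Helper34.TYP
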