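import Pool.Agent.Helper34.TYP.Graph
import Pool.Agent.Helper49.IP.Main

/-!
# Lower bounds for the order from the Fisher-Ryan inequality
-/

set_option autoImplicit false

namespace Pool.Agent.Helper34.TYP

open Finset
open Pool.Agent.Helper49.IP (indCount IsIndPerm orders minOrder Before)

variable {V : Type} [Fintype V]

/-- the normalised counts -/
noncomputable def NN (G : SimpleGraph V) (m k : ℕ) : ℝ :=
  ((indCount G k : ℝ) / (m.choose k : ℝ)) ^ ((1 : ℝ) / (k : ℝ))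

omit [Fintype V] in
theorem NN_nonneg (G : SimpleGraph V) (m k : ℕ) : 0 ≤ NN G m k := by
  unfold NN
  positivity

omit [Fintype V] in
theorem NN_pow {G : SimpleGraph V} {m k : ℕ} (hk : 1 ≤ k) (hkm : k ≤ m) :
    (m.choose k : ℝ) * NN G m k ^ k = indCount G k := by
  have hc : (m.choose k : ℝ) ≠ 0 := by
    exact_mod_cast (Nat.choose_pos hkm).ne'
  have hk0 : (k : ℝ) ≠ 0 := by
    exact_mod_cast (by omega : k ≠ 0)
  have h1 : NN G m k ^ k = (indCount G k : ℝ) / (m.choose k : ℝ) := by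
    unfold NN
    rw [← Real.rpow_natCast, ← Real.rpow_mul (by positivity), one_div_mul_cancel hk0,
      Real.rpow_one]
  rw [h1, mul_div_cancel₀ _ hc]

theorem NN_succ {G : SimpleGraph V} {m k : ℕ} (hα : G.indepNum ≤ m) (hk : 1 ≤ k)
    (hkm : k + 1 ≤ m) : NN G m (k + 1) ≤ NN G m k := by
  classical
  have h := fisher_ryan_count hα hkm
  have hk0 : (0 : ℝ) < k := by exact_mod_cast hk
  have hX : (0 : ℝ) ≤ (indCount G (k + 1) : ℝ) / (m.choose (k + 1) : ℝ) := by positivity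
  have hY : (0 : ℝ) ≤ (indCount G k : ℝ) / (m.choose k : ℝ) := by positivity
  have h1 := Real.rpow_le_rpow (by positivity) h
    (show (0 : ℝ) ≤ 1 / ((k : ℝ) * ((k : ℝ) + 1)) by positivity)
  rw [← Real.rpow_natCast, ← Real.rpow_natCast, ← Real.rpow_mul hX, ← Real.rpow_mul hY] at h1
  have e1 : (k : ℝ) * (1 / ((k : ℝ) * ((k : ℝ) + 1))) = 1 / ((k + 1 : ℕ) : ℝ) := by
    push_cast
    field_simp
  have e2 : ((k + 1 : ℕ) : ℝ) * (1 / ((k : ℝ) * ((k : ℝ) + 1))) = 1 / (k : ℝ) := by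
    push_cast
    field_simp
  rw [e1, e2] at h1
  exact h1

theorem NN_anti {G : SimpleGraph V} {m : ℕ} (hα : G.indepNum ≤ m) {a b : ℕ} (ha : 1 ≤ a)
    (hab : a ≤ b) (hb : b ≤ m) : NN G m b ≤ NN G m a := by
  induction b, hab using Nat.le_induction with
  | base => exact le_rfl
  | succ b hab ih => exact (NN_succ hα (by omega) hb).trans (ih (by omega))

/-- every graph with the independent set permutation `π` gives a sequence -/
theorem seq_of_orders {m : ℕ} (hm : 1 ≤ m) {π : Equiv.Perm (Fin m)} {n : ℕ} (hn : n ∈ orders π) :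
    ∃ N : ℕ → ℝ, (∀ a b, 1 ≤ a → a ≤ b → b ≤ m → N b ≤ N a) ∧ (∀ k, 1 ≤ k → k ≤ m → 1 ≤ N k) ∧
      (n : ℝ) = m * N 1 ∧
      (∀ k l, Before π k l → (m.choose k : ℝ) * N k ^ k ≤ (m.choose l : ℝ) * N l ^ l) := by
  obtain ⟨V, i, G, hV, hG⟩ := hn
  have hα : G.indepNum = m := hG.1
  have hanti : ∀ a b, 1 ≤ a → a ≤ b → b ≤ m → NN G m b ≤ NN G m a := fun a b h1 h2 h3 =>
    NN_anti hα.le h1 h2 h3
  have hmm : 1 ≤ NN G m m := by
    have h1 := (Pool.Agent.Helper49.IP.indCount_indepNum hα).1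
    unfold NN
    rw [Nat.choose_self, Nat.cast_one, div_one]
    refine Real.one_le_rpow ?_ (by positivity)
    exact_mod_cast Nat.one_le_iff_ne_zero.2 h1
  refine ⟨NN G m, hanti, fun k h1 h2 => hmm.trans (hanti k m h1 h2 le_rfl), ?_, ?_⟩
  · have h1 := NN_pow (G := G) (m := m) (k := 1) le_rfl hm
    rw [Nat.choose_one_right, pow_one, Pool.Agent.Helper49.IP.indCount_one, hV] at h1
    exact h1.symm
  · intro k l hkl
    obtain ⟨⟨h1, h2⟩, h3, h4⟩ := Pool.Agent.Helper49.IP.before_range hkl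
    rw [NN_pow h1 h2, NN_pow h3 h4]
    exact_mod_cast Pool.Agent.Helper49.IP.count_before hG hkl

/-- the bound from one pair -/
theorem pair_bound {m : ℕ} (hm : 1 ≤ m) {π : Equiv.Perm (Fin m)} {a b c : ℕ} (hab : a < b)
    (h : Before π a b) (hc : 1 ≤ c) (hcb : c ≤ b) (hc1 : c = 1 ∨ Before π c 1) {n : ℕ}
    (hn : n ∈ orders π) :
    m.choose c ^ (b - a) * m.choose a ^ c ≤ n ^ (b - a) * m.choose b ^ c := by
  obtain ⟨N, h1, h2, h3, h4⟩ := seq_of_orders hm hn
  obtain ⟨⟨ha, ham⟩, hb, hbm⟩ := Pool.Agent.Helper49.IP.before_range h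
  have hNb := h2 b hb hbm
  have hNb0 : 0 < N b := by linarith
  -- the pair
  have h5 : (m.choose a : ℝ) ≤ (m.choose b : ℝ) * N b ^ (b - a) := by
    have h6 := h4 a b h
    have h7 : (m.choose a : ℝ) * N b ^ a ≤ (m.choose b : ℝ) * N b ^ b := by
      refine le_trans ?_ h6
      have := h1 a b ha hab.le hbm
      gcongr
    have h8 : N b ^ b = N b ^ (b - a) * N b ^ a := by
      rw [← pow_add]
      congr 1
      omega
    rw [h8, ← mul_assoc] at h7
    exact le_of_mul_le_mul_right h7 (by positivity)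
  -- the order
  have h6 : (m.choose c : ℝ) * N b ^ c ≤ n := by
    have h7 : (m.choose c : ℝ) * N c ^ c ≤ n := by
      rcases hc1 with rfl | hc1
      · rw [h3, Nat.choose_one_right, pow_one]
      · have h8 := h4 c 1 hc1
        rw [Nat.choose_one_right, pow_one] at h8
        rw [h3]
        exact h8
    refine le_trans ?_ h7
    have := h1 c b hc hcb hbm
    gcongr
  have h7 : (m.choose c : ℝ) ^ (b - a) * (m.choose a : ℝ) ^ c ≤
      (n : ℝ) ^ (b - a) * (m.choose b : ℝ) ^ c := by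
    calc (m.choose c : ℝ) ^ (b - a) * (m.choose a : ℝ) ^ c
        ≤ (m.choose c : ℝ) ^ (b - a) * ((m.choose b : ℝ) * N b ^ (b - a)) ^ c := by gcongr
      _ = ((m.choose c : ℝ) * N b ^ c) ^ (b - a) * (m.choose b : ℝ) ^ c := by
        rw [mul_pow, mul_pow, ← pow_mul, ← pow_mul, mul_comm (b - a) c]
        ring
      _ ≤ _ := by gcongr
  exact_mod_cast h7

end Pool.Agent.Helper34.TYP
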