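import Mathlib

/-!
# Newton's and Maclaurin's inequalities for finite multisets of nonnegative reals
-/

set_option autoImplicit false

namespace Pool.Agent.Helper34.TYP

open Multiset

theorem esymm_zero (s : Multiset ℝ) : s.esymm 0 = 1 := by
  simp [Multiset.esymm]

theorem esymm_cons (a : ℝ) (s : Multiset ℝ) (n : ℕ) :
    (a ::ₘ s).esymm (n + 1) = s.esymm (n + 1) + a * s.esymm n := by
  simp only [Multiset.esymm, Multiset.powersetCard_cons, Multiset.map_add, Multiset.sum_add,
    Multiset.map_map]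
  congr 1
  rw [← Multiset.sum_map_mul_left]
  congr 1
  refine Multiset.map_congr rfl fun t _ => ?_
  simp

theorem esymm_zero_empty (n : ℕ) : (0 : Multiset ℝ).esymm (n + 1) = 0 := by
  rw [Multiset.esymm, Multiset.powersetCard_eq_empty (n + 1) (by simp)]
  simp

theorem esymm_nonneg {s : Multiset ℝ} (hs : ∀ a ∈ s, 0 ≤ a) : ∀ n, 0 ≤ s.esymm n := by
  induction s using Multiset.induction_on with
  | empty =>
    intro n
    rcases n with _ | n
    · rw [esymm_zero]
      exact zero_le_one
    · rw [esymm_zero_empty]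
  | cons a s ih =>
    intro n
    have ih' := ih (fun b hb => hs b (Multiset.mem_cons_of_mem hb))
    have ha := hs a (Multiset.mem_cons_self a s)
    rcases n with _ | n
    · rw [esymm_zero]
      exact zero_le_one
    · rw [esymm_cons]
      exact add_nonneg (ih' _) (mul_nonneg ha (ih' _))

theorem esymm_big {s : Multiset ℝ} : ∀ {n : ℕ}, Multiset.card s < n → s.esymm n = 0 := by
  intro n h
  rw [Multiset.esymm, Multiset.powersetCard_eq_empty n h]
  simp

theorem esymm_chain {s : Multiset ℝ} (hs : ∀ a ∈ s, 0 ≤ a) :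
    ∀ n, s.esymm n = 0 → s.esymm (n + 1) = 0 := by
  induction s using Multiset.induction_on with
  | empty =>
    intro n _
    exact esymm_zero_empty n
  | cons a s ih =>
    intro n hn
    have hs' : ∀ b ∈ s, 0 ≤ b := fun b hb => hs b (Multiset.mem_cons_of_mem hb)
    have ih' := ih hs'
    have ha := hs a (Multiset.mem_cons_self a s)
    rcases n with _ | n
    · rw [esymm_zero] at hn
      exact absurd hn one_ne_zero
    · rw [esymm_cons] at hn
      have h1 := esymm_nonneg hs' (n + 1)
      have h2 := mul_nonneg ha (esymm_nonneg hs' n)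
      have h3 : s.esymm (n + 1) = 0 := by linarith
      rw [esymm_cons, ih' _ h3, h3, mul_zero, add_zero]

/-- the algebraic identity behind Newton's inequality -/
theorem newton_alg {p q a b c d y : ℝ} (hp : 1 ≤ p) (hq : 1 ≤ q) (ha : 0 ≤ a) (hb : 0 ≤ b)
    (hc : 0 ≤ c) (hy : 0 ≤ y) (hbc : b * c = 0 → a * d = 0)
    (h1 : (p + 1) * q * (b * d) ≤ p * (q - 1) * c ^ 2)
    (h2 : p * (q + 1) * (a * c) ≤ (p - 1) * q * b ^ 2) :
    (p + 1) * (q + 1) * ((b + y * a) * (d + y * c)) ≤ p * q * (c + y * b) ^ 2 := by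
  have h3 : (p + 1) * (q + 1) * (a * d) ≤ (p - 1) * (q - 1) * (b * c) := by
    rcases (mul_nonneg hb hc).eq_or_lt with h | h
    · rw [← h, hbc h.symm, mul_zero, mul_zero]
    · have h4 : ((p + 1) * q * (b * d)) * (p * (q + 1) * (a * c)) ≤
          (p * (q - 1) * c ^ 2) * ((p - 1) * q * b ^ 2) := by
        refine mul_le_mul h1 h2 (by positivity) ?_
        have : 0 ≤ q - 1 := by linarith
        positivity
      have h5 : (p * q * (b * c)) * ((p + 1) * (q + 1) * (a * d)) ≤
          (p * q * (b * c)) * ((p - 1) * (q - 1) * (b * c)) := by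
        refine le_trans (le_of_eq ?_) (h4.trans (le_of_eq ?_)) <;> ring
      exact le_of_mul_le_mul_left h5 (by positivity)
  have hpq : 0 < p * q := by positivity
  have h6 : p * q * (p * q * (c + y * b) ^ 2) -
      p * q * ((p + 1) * (q + 1) * ((b + y * a) * (d + y * c))) =
      p * (q + 1) * (p * (q - 1) * c ^ 2 - (p + 1) * q * (b * d)) +
      y ^ 2 * ((p + 1) * q) * ((p - 1) * q * b ^ 2 - p * (q + 1) * (a * c)) +
      y * (p * q) * ((p - 1) * (q - 1) * (b * c) - (p + 1) * (q + 1) * (a * d)) +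
      (p * c - q * y * b) ^ 2 := by
    ring
  have h7 : 0 ≤ p * (q + 1) * (p * (q - 1) * c ^ 2 - (p + 1) * q * (b * d)) :=
    mul_nonneg (by positivity) (by linarith)
  have h8 : 0 ≤ y ^ 2 * ((p + 1) * q) * ((p - 1) * q * b ^ 2 - p * (q + 1) * (a * c)) :=
    mul_nonneg (by positivity) (by linarith)
  have h9 : 0 ≤ y * (p * q) * ((p - 1) * (q - 1) * (b * c) - (p + 1) * (q + 1) * (a * d)) :=
    mul_nonneg (by positivity) (by linarith)
  have h10 : 0 ≤ (p * c - q * y * b) ^ 2 := sq_nonneg _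
  have h11 : p * q * ((p + 1) * (q + 1) * ((b + y * a) * (d + y * c))) ≤
      p * q * (p * q * (c + y * b) ^ 2) := by linarith
  exact le_of_mul_le_mul_left h11 hpq

/-- Newton's inequality -/
theorem newton {s : Multiset ℝ} (hs : ∀ a ∈ s, 0 ≤ a) : ∀ j : ℕ,
    ((j : ℝ) + 2) * ((Multiset.card s : ℝ) - j) * (s.esymm j * s.esymm (j + 2)) ≤
      ((j : ℝ) + 1) * ((Multiset.card s : ℝ) - j - 1) * s.esymm (j + 1) ^ 2 := by
  induction s using Multiset.induction_on with
  | empty =>
    intro j
    rw [esymm_zero_empty, esymm_zero_empty]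
    simp
  | cons y s ih =>
    intro j
    have hs' : ∀ b ∈ s, 0 ≤ b := fun b hb => hs b (Multiset.mem_cons_of_mem hb)
    have ih' := ih hs'
    have hy := hs y (Multiset.mem_cons_self y s)
    have hE := esymm_nonneg hs'
    rw [Multiset.card_cons]
    push_cast
    rcases lt_trichotomy (Multiset.card s) j with h | h | h
    · -- everything vanishes
      have e1 : s.esymm (j + 1) = 0 := esymm_big (by omega)
      have e2 : s.esymm j = 0 := esymm_big (by omega)
      have e3 : s.esymm (j + 2) = 0 := esymm_big (by omega)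
      rw [esymm_cons y s j, esymm_cons y s (j + 1), e1, e2, e3]
      simp
    · have e1 : s.esymm (j + 1) = 0 := esymm_big (by omega)
      have e3 : s.esymm (j + 2) = 0 := esymm_big (by omega)
      rw [esymm_cons y s j, esymm_cons y s (j + 1), e1, e3]
      have h4 : ((Multiset.card s : ℕ) : ℝ) = j := by exact_mod_cast h
      rw [h4]
      simp
    · have hq : (1 : ℝ) ≤ (Multiset.card s : ℝ) - j := by
        have : (j : ℝ) + 1 ≤ Multiset.card s := by exact_mod_cast h
        linarith
      rcases j with _ | j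
      · have h1 := ih' 0
        rw [esymm_cons y s 0, esymm_cons y s (0 + 1)]
        rw [esymm_zero] at h1 ⊢
        have h2 := newton_alg (p := 1) (q := (Multiset.card s : ℝ) - ((0 : ℕ) : ℝ)) (a := 0)
          (b := s.esymm 0) (c := s.esymm 1) (d := s.esymm 2) (y := y) le_rfl hq le_rfl (hE _)
          (hE _) hy (by simp) (by
            rw [esymm_zero]
            refine le_trans (le_of_eq ?_) (h1.trans (le_of_eq ?_))
            · push_cast
              ring
            · push_cast
              ring) (by simp)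
        rw [esymm_zero] at h2 ⊢
        refine le_trans (le_of_eq ?_) (h2.trans (le_of_eq ?_))
        · push_cast
          ring
        · push_cast
          ring
      · have h1 := ih' (j + 1)
        have h1' := ih' j
        rw [esymm_cons y s (j + 1), esymm_cons y s (j + 2), esymm_cons y s j]
        have h2 := newton_alg (p := (j : ℝ) + 2) (q := (Multiset.card s : ℝ) - ((j + 1 : ℕ) : ℝ))
          (a := s.esymm j) (b := s.esymm (j + 1)) (c := s.esymm (j + 2)) (d := s.esymm (j + 3))
          (y := y) (by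
            have : (0 : ℝ) ≤ j := Nat.cast_nonneg j
            linarith) hq (hE _) (hE _) (hE _) hy (by
            intro h3
            rcases mul_eq_zero.1 h3 with h3 | h3
            · rw [esymm_chain hs' _ (esymm_chain hs' _ h3), mul_zero]
            · rw [esymm_chain hs' _ h3, mul_zero]) (by
            refine le_trans (le_of_eq ?_) (h1.trans (le_of_eq ?_))
            · push_cast
              ring
            · push_cast
              ring) (by
            refine le_trans (le_of_eq ?_) (h1'.trans (le_of_eq ?_))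
            · push_cast
              ring
            · push_cast
              ring)
        refine le_trans (le_of_eq ?_) (h2.trans (le_of_eq ?_))
        · push_cast
          ring
        · push_cast
          ring

/-- Newton's inequality with a larger number of variables -/
theorem newton_pad {s : Multiset ℝ} (hs : ∀ a ∈ s, 0 ≤ a) {m : ℕ} (hm : Multiset.card s ≤ m)
    (j : ℕ) :
    ((j : ℝ) + 2) * ((m : ℝ) - j) * (s.esymm j * s.esymm (j + 2)) ≤
      ((j : ℝ) + 1) * ((m : ℝ) - j - 1) * s.esymm (j + 1) ^ 2 := by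
  have hE := esymm_nonneg hs
  have hm' : (Multiset.card s : ℝ) ≤ m := by exact_mod_cast hm
  rcases lt_or_ge (Multiset.card s) (j + 1) with h | h
  · rw [esymm_big (show Multiset.card s < j + 1 from h),
      esymm_big (show Multiset.card s < j + 2 by omega)]
    simp
  · have hn : (1 : ℝ) ≤ (Multiset.card s : ℝ) - j := by
      have : (j : ℝ) + 1 ≤ Multiset.card s := by exact_mod_cast h
      linarith
    have h1 := newton hs j
    obtain ⟨n, hn'⟩ : ∃ n : ℝ, n = (Multiset.card s : ℝ) := ⟨_, rfl⟩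
    rw [← hn'] at h1 hn hm'
    have hA : 0 ≤ s.esymm j * s.esymm (j + 2) := mul_nonneg (hE _) (hE _)
    have hB : 0 ≤ s.esymm (j + 1) ^ 2 := sq_nonneg _
    obtain ⟨A, hA'⟩ : ∃ A : ℝ, A = s.esymm j * s.esymm (j + 2) := ⟨_, rfl⟩
    obtain ⟨B, hB'⟩ : ∃ B : ℝ, B = s.esymm (j + 1) ^ 2 := ⟨_, rfl⟩
    rw [← hA', ← hB'] at h1 ⊢
    rw [← hA'] at hA
    rw [← hB'] at hB
    have hj : (0 : ℝ) ≤ j := Nat.cast_nonneg j
    have h2 : (n - j) * (((j : ℝ) + 2) * ((m : ℝ) - j) * A) ≤
        (n - j) * (((j : ℝ) + 1) * ((m : ℝ) - j - 1) * B) := by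
      have h3 : ((m : ℝ) - j) * (((j : ℝ) + 2) * (n - j) * A) ≤
          ((m : ℝ) - j) * (((j : ℝ) + 1) * (n - j - 1) * B) :=
        mul_le_mul_of_nonneg_left h1 (by linarith)
      have h4 : ((m : ℝ) - j) * (n - j - 1) ≤ (n - j) * ((m : ℝ) - j - 1) := by nlinarith
      have h5 : ((m : ℝ) - j) * (n - j - 1) * (((j : ℝ) + 1) * B) ≤
          (n - j) * ((m : ℝ) - j - 1) * (((j : ℝ) + 1) * B) :=
        mul_le_mul_of_nonneg_right h4 (by positivity)
      calc (n - j) * (((j : ℝ) + 2) * ((m : ℝ) - j) * A)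
          = ((m : ℝ) - j) * (((j : ℝ) + 2) * (n - j) * A) := by ring
        _ ≤ ((m : ℝ) - j) * (((j : ℝ) + 1) * (n - j - 1) * B) := h3
        _ = ((m : ℝ) - j) * (n - j - 1) * (((j : ℝ) + 1) * B) := by ring
        _ ≤ (n - j) * ((m : ℝ) - j - 1) * (((j : ℝ) + 1) * B) := h5
        _ = _ := by ring
    exact le_of_mul_le_mul_left h2 (by linarith)

/-- the normalised elementary symmetric functions -/
noncomputable def EN (s : Multiset ℝ) (m j : ℕ) : ℝ := s.esymm j / (m.choose j : ℝ)

theorem choose_newton (m j : ℕ) (h : j + 2 ≤ m) :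
    ((j : ℝ) + 1) * ((m : ℝ) - j - 1) * ((m.choose j : ℝ) * (m.choose (j + 2) : ℝ))⁻¹ =
      ((j : ℝ) + 2) * ((m : ℝ) - j) * ((m.choose (j + 1) : ℝ) ^ 2)⁻¹ := by
  have h1 : (m.choose j : ℝ) * ((m : ℝ) - j) = (m.choose (j + 1) : ℝ) * ((j : ℝ) + 1) := by
    have := Nat.choose_succ_right_eq m j
    have h2 : ((m - j : ℕ) : ℝ) = (m : ℝ) - j := by
      rw [Nat.cast_sub (by omega)]
    rw [← h2]
    exact_mod_cast this.symm
  have h3 : (m.choose (j + 1) : ℝ) * ((m : ℝ) - j - 1) =
      (m.choose (j + 2) : ℝ) * ((j : ℝ) + 2) := by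
    have := Nat.choose_succ_right_eq m (j + 1)
    have h2 : ((m - (j + 1) : ℕ) : ℝ) = (m : ℝ) - j - 1 := by
      rw [Nat.cast_sub (by omega)]
      push_cast
      ring
    rw [← h2]
    have h4 : (m.choose (j + 1 + 1) : ℝ) * ((j + 1 : ℕ) + 1 : ℝ) =
        (m.choose (j + 1) : ℝ) * ((m - (j + 1) : ℕ) : ℝ) := by exact_mod_cast this
    rw [← h4]
    push_cast
    ring
  have c0 : (m.choose j : ℝ) ≠ 0 := by
    exact_mod_cast (Nat.choose_pos (by omega)).ne'
  have c1 : (m.choose (j + 1) : ℝ) ≠ 0 := by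
    exact_mod_cast (Nat.choose_pos (by omega)).ne'
  have c2 : (m.choose (j + 2) : ℝ) ≠ 0 := by
    exact_mod_cast (Nat.choose_pos (by omega)).ne'
  rw [← div_eq_mul_inv, ← div_eq_mul_inv, div_eq_div_iff (mul_ne_zero c0 c2) (pow_ne_zero 2 c1)]
  calc ((j : ℝ) + 1) * ((m : ℝ) - j - 1) * (m.choose (j + 1) : ℝ) ^ 2
      = ((m.choose (j + 1) : ℝ) * ((j : ℝ) + 1)) *
        ((m.choose (j + 1) : ℝ) * ((m : ℝ) - j - 1)) := by ring
    _ = ((m.choose j : ℝ) * ((m : ℝ) - j)) * ((m.choose (j + 2) : ℝ) * ((j : ℝ) + 2)) := by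
      rw [← h1, h3]
    _ = _ := by ring

theorem EN_nonneg {s : Multiset ℝ} (hs : ∀ a ∈ s, 0 ≤ a) (m j : ℕ) : 0 ≤ EN s m j :=
  div_nonneg (esymm_nonneg hs j) (Nat.cast_nonneg _)

theorem EN_newton {s : Multiset ℝ} (hs : ∀ a ∈ s, 0 ≤ a) {m : ℕ} (hm : Multiset.card s ≤ m)
    {j : ℕ} (h : j + 2 ≤ m) : EN s m j * EN s m (j + 2) ≤ EN s m (j + 1) ^ 2 := by
  have h1 := newton_pad hs hm j
  have h2 := choose_newton m j h
  have c0 : (0 : ℝ) < (m.choose j : ℝ) := by
    exact_mod_cast Nat.choose_pos (by omega)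
  have c1 : (0 : ℝ) < (m.choose (j + 1) : ℝ) := by
    exact_mod_cast Nat.choose_pos (by omega)
  have c2 : (0 : ℝ) < (m.choose (j + 2) : ℝ) := by
    exact_mod_cast Nat.choose_pos (by omega)
  have hp : (0 : ℝ) < ((j : ℝ) + 2) * ((m : ℝ) - j) := by
    have h3 : (j : ℝ) + 2 ≤ m := by exact_mod_cast h
    have h4 : (0 : ℝ) ≤ j := Nat.cast_nonneg j
    have h5 : (0 : ℝ) < (m : ℝ) - j := by linarith
    positivity
  have h3 : ((j : ℝ) + 2) * ((m : ℝ) - j) * (EN s m j * EN s m (j + 2)) ≤
      ((j : ℝ) + 2) * ((m : ℝ) - j) * EN s m (j + 1) ^ 2 := by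
    unfold EN
    calc ((j : ℝ) + 2) * ((m : ℝ) - j) *
          (s.esymm j / (m.choose j : ℝ) * (s.esymm (j + 2) / (m.choose (j + 2) : ℝ)))
        = (((j : ℝ) + 2) * ((m : ℝ) - j) * (s.esymm j * s.esymm (j + 2))) *
          ((m.choose j : ℝ) * (m.choose (j + 2) : ℝ))⁻¹ := by
          rw [mul_inv]
          ring
      _ ≤ (((j : ℝ) + 1) * ((m : ℝ) - j - 1) * s.esymm (j + 1) ^ 2) *
          ((m.choose j : ℝ) * (m.choose (j + 2) : ℝ))⁻¹ :=
          mul_le_mul_of_nonneg_right h1 (by positivity)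
      _ = (((j : ℝ) + 1) * ((m : ℝ) - j - 1) *
          ((m.choose j : ℝ) * (m.choose (j + 2) : ℝ))⁻¹) * s.esymm (j + 1) ^ 2 := by ring
      _ = (((j : ℝ) + 2) * ((m : ℝ) - j) * ((m.choose (j + 1) : ℝ) ^ 2)⁻¹) *
          s.esymm (j + 1) ^ 2 := by rw [h2]
      _ = _ := by
          rw [div_pow]
          ring
  exact le_of_mul_le_mul_left h3 hp

/-- Maclaurin's inequality for consecutive indices -/
theorem maclaurin {s : Multiset ℝ} (hs : ∀ a ∈ s, 0 ≤ a) {m : ℕ} (hm : Multiset.card s ≤ m) :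
    ∀ j : ℕ, j + 1 ≤ m → EN s m (j + 1) ^ j ≤ EN s m j ^ (j + 1) := by
  intro j
  induction j with
  | zero =>
    intro _
    simp [EN, esymm_zero]
  | succ j ih =>
    intro h
    have ih' := ih (by omega)
    have h0 := EN_nonneg hs m j
    have h1 := EN_nonneg hs m (j + 1)
    have h2 := EN_nonneg hs m (j + 2)
    rcases h1.eq_or_lt with h3 | h3
    · have h4 : s.esymm (j + 1) = 0 := by
        have c1 : (m.choose (j + 1) : ℝ) ≠ 0 := by
          exact_mod_cast (Nat.choose_pos (by omega)).ne'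
        have h5 : s.esymm (j + 1) / (m.choose (j + 1) : ℝ) = 0 := h3.symm
        exact (div_eq_zero_iff.1 h5).resolve_right c1
      have h6 : EN s m (j + 2) = 0 := by
        unfold EN
        rw [esymm_chain hs _ h4, zero_div]
      rw [show j + 1 + 1 = j + 2 from rfl, h6, ← h3, zero_pow (by omega), zero_pow (by omega)]
    · have h5 : 0 < EN s m j := by
        rcases h0.eq_or_lt with h6 | h6
        · exfalso
          have c1 : (m.choose j : ℝ) ≠ 0 := by
            exact_mod_cast (Nat.choose_pos (by omega)).ne'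
          have h7 : s.esymm j / (m.choose j : ℝ) = 0 := h6.symm
          have h8 := (div_eq_zero_iff.1 h7).resolve_right c1
          have h9 : EN s m (j + 1) = 0 := by
            unfold EN
            rw [esymm_chain hs _ h8, zero_div]
          linarith
        · exact h6
      have h6 := EN_newton hs hm (j := j) (by omega)
      have h7 : (EN s m j * EN s m (j + 2)) ^ (j + 1) ≤ (EN s m (j + 1) ^ 2) ^ (j + 1) :=
        pow_le_pow_left₀ (mul_nonneg h0 h2) h6 _
      rw [mul_pow] at h7
      have h8 : EN s m (j + 1) ^ j * EN s m (j + 2) ^ (j + 1) ≤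
          EN s m (j + 1) ^ j * EN s m (j + 1) ^ (j + 2) := by
        calc EN s m (j + 1) ^ j * EN s m (j + 2) ^ (j + 1)
            ≤ EN s m j ^ (j + 1) * EN s m (j + 2) ^ (j + 1) :=
              mul_le_mul_of_nonneg_right ih' (by positivity)
          _ ≤ (EN s m (j + 1) ^ 2) ^ (j + 1) := h7
          _ = _ := by ring
      exact le_of_mul_le_mul_left h8 (by positivity)

end Pool.Agent.Helper34.TYP
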