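import Pool.Agent.Helper34.TYP.Low

/-!
# Exact values: permutations which sort the numbers `C(m, k) t ^ k`
-/

set_option autoImplicit false

namespace Pool.Agent.Helper34.TYP

open Finset
open Pool.Agent.Helper49.IP (indCount IsIndPerm orders minOrder Before Cond c2 c3 realize' mem_orders)

/-- the extra weights -/
def wT (m c t k : ℕ) : ℕ := if k < c then m.choose c * t ^ (c - k) - m.choose k else 0

theorem wT_le {m c t : ℕ} (hc : c ≤ t + 1) (hc' : c ≤ t * (m - c + 1)) (hcm : c ≤ m) {k : ℕ}
    (hk : k ≤ c) : m.choose k ≤ m.choose c * t ^ (c - k) := by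
  have key : ∀ d, d ≤ c → m.choose (c - d) ≤ m.choose c * t ^ d := by
    intro d
    induction d with
    | zero =>
      intro _
      simp
    | succ d ih =>
      intro hd
      have h1 := ih (by omega)
      have h2 := Nat.choose_succ_right_eq m (c - (d + 1))
      rw [show c - (d + 1) + 1 = c - d by omega] at h2
      have h3 : c - d ≤ t * (m - (c - (d + 1))) := by
        rcases Nat.eq_zero_or_pos d with rfl | hd0
        · rw [show m - (c - (0 + 1)) = m - c + 1 by omega]
          simpa using hc'
        · calc c - d ≤ t := by omega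
            _ ≤ t * (m - (c - (d + 1))) := Nat.le_mul_of_pos_right _ (by omega)
      have h4 : m.choose (c - (d + 1)) ≤ m.choose (c - d) * t := by
        have h5 : 0 < m - (c - (d + 1)) := by omega
        refine Nat.le_of_mul_le_mul_right ?_ h5
        rw [← h2]
        calc m.choose (c - d) * (c - d) ≤ m.choose (c - d) * (t * (m - (c - (d + 1)))) :=
              Nat.mul_le_mul_left _ h3
          _ = _ := by ring
      calc m.choose (c - (d + 1)) ≤ m.choose (c - d) * t := h4
        _ ≤ m.choose c * t ^ d * t := Nat.mul_le_mul_right _ h1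
        _ = _ := by ring
  have h1 := key (c - k) (by omega)
  rwa [show c - (c - k) = k by omega] at h1

theorem cond_T {m c t : ℕ} (hc : c ≤ t + 1) (hc' : c ≤ t * (m - c + 1)) (hcm : c ≤ m) :
    Cond m (wT m c t) := by
  have h1 : ∀ k, 1 ≤ k → (k + 1) * wT m c t (k + 1) ≤ wT m c t k := by
    intro k _
    by_cases h0 : k + 1 < c
    · rw [wT, wT, if_pos (by omega), if_pos (by omega)]
      have h2 := wT_le hc hc' hcm (k := k) (by omega)
      have h3 := wT_le hc hc' hcm (k := k + 1) (by omega)
      have h4 := Nat.choose_succ_right_eq m k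
      have h5 : m.choose k ≤ (k + 1) * m.choose (k + 1) := by
        rw [mul_comm, h4]
        exact Nat.le_mul_of_pos_right _ (by omega)
      have h6 : (k + 1) * (m.choose c * t ^ (c - (k + 1))) ≤ m.choose c * t ^ (c - k) := by
        have h7 : t ^ (c - k) = t * t ^ (c - (k + 1)) := by
          rw [← pow_succ']
          congr 1
          omega
        rw [h7]
        calc (k + 1) * (m.choose c * t ^ (c - (k + 1))) ≤
            t * (m.choose c * t ^ (c - (k + 1))) := Nat.mul_le_mul_right _ (by omega)
          _ = _ := by ring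
      rw [Nat.mul_sub]
      omega
    · rw [show wT m c t (k + 1) = 0 from if_neg h0, mul_zero]
      exact Nat.zero_le _
  refine ⟨fun j hj => by rw [wT, if_neg (by omega)], fun k hk hkm => ?_⟩
  have h2 := h1 k hk
  have h3 := h1 (k + 2) (by omega)
  have h4 : (k + 3).choose 3 * wT m c t (k + 3) ≤ (k + 2).choose 2 * wT m c t (k + 2) := by
    have h5 := Nat.mul_le_mul_left ((k + 2).choose 2) h3
    have h6 : 3 * (k + 3).choose 3 = (k + 2).choose 2 * (k + 2 + 1) := by
      have e2 := c2 k
      have e3 := c3 k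
      refine Nat.eq_of_mul_eq_mul_left (show 0 < 2 by norm_num) ?_
      calc 2 * (3 * (k + 3).choose 3) = 6 * (k + 3).choose 3 := by ring
        _ = (k + 1) * (k + 2) * (k + 3) := e3
        _ = 2 * (k + 2).choose 2 * (k + 3) := by rw [e2]
        _ = _ := by ring
    calc (k + 3).choose 3 * wT m c t (k + 3) ≤ 3 * (k + 3).choose 3 * wT m c t (k + 3) := by
          rw [mul_assoc]
          omega
      _ = (k + 2).choose 2 * ((k + 2 + 1) * wT m c t (k + 2 + 1)) := by
          rw [h6]
          ring
      _ ≤ _ := h5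
  exact Nat.add_le_add h2 h4

/-- the lower bound from a pair of entries -/
theorem lower_pair {m : ℕ} (hm : 1 ≤ m) {π : Equiv.Perm (Fin m)} {a b c t : ℕ} (hab : a < b)
    (h : Before π a b) (ht : m.choose b * t ^ (b - a) ≤ m.choose a) (hc : 1 ≤ c) (hcb : c ≤ b)
    (hc1 : c = 1 ∨ Before π c 1) {n : ℕ} (hn : n ∈ orders π) : m.choose c * t ^ c ≤ n := by
  have h1 := pair_bound hm hab h hc hcb hc1 hn
  obtain ⟨⟨ha, ham⟩, hb, hbm⟩ := Pool.Agent.Helper49.IP.before_range h
  have hB : 0 < m.choose b := Nat.choose_pos hbm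
  have h2 : (m.choose c * t ^ c) ^ (b - a) ≤ n ^ (b - a) := by
    refine Nat.le_of_mul_le_mul_right ?_ (pow_pos hB c)
    calc (m.choose c * t ^ c) ^ (b - a) * m.choose b ^ c
        = m.choose c ^ (b - a) * (m.choose b * t ^ (b - a)) ^ c := by
          rw [mul_pow, mul_pow, ← pow_mul, ← pow_mul, mul_comm c (b - a)]
          ring
      _ ≤ m.choose c ^ (b - a) * m.choose a ^ c :=
          Nat.mul_le_mul_left _ (Nat.pow_le_pow_left ht c)
      _ ≤ _ := h1
  exact (Nat.pow_le_pow_iff_left (by omega)).1 h2

/-- exact values -/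
theorem exact_sorted {m : ℕ} {π : Equiv.Perm (Fin m)} {a b c t : ℕ} (ht : 1 ≤ t) (hab : a < b)
    (h : Before π a b) (htie : m.choose a = m.choose b * t ^ (b - a)) (hc : 1 ≤ c) (hcb : c ≤ b)
    (hct : c ≤ t + 1) (hct' : c ≤ t * (m - c + 1)) (hc1 : c = 1 ∨ Before π c 1)
    (hT : ∀ k l, Before π k l → m.choose (max k c) * t ^ max k c ≤
      m.choose (max l c) * t ^ max l c) : IsLeast (orders π) (m.choose c * t ^ c) := by
  obtain ⟨⟨ha, ham⟩, hb, hbm⟩ := Pool.Agent.Helper49.IP.before_range h
  have hm : 1 ≤ m := by omega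
  refine ⟨?_, fun n hn => lower_pair hm hab h htie.ge hc hcb hc1 hn⟩
  obtain ⟨V, _, G, hα, hG⟩ := realize' (s := t) hm ht (cond_T hct hct' (by omega : c ≤ m))
  have hcount : ∀ k, 1 ≤ k → indCount G k = m.choose (max k c) * t ^ max k c := by
    intro k hk
    rw [hG k hk, wT]
    split_ifs with h3
    · have h4 := wT_le hct hct' (by omega : c ≤ m) (k := k) h3.le
      rw [Nat.add_sub_cancel' h4, mul_assoc, ← pow_add, show c - k + k = c by omega,
        max_eq_right h3.le]
    · rw [add_zero, max_eq_left (by omega)]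
  have h3 := mem_orders hα hcount (π := π) hT
  rw [max_eq_right hc] at h3
  exact h3

end Pool.Agent.Helper34.TYP
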