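import Pool.Agent.Helper34.TYP.Low
import Pool.Agent.Helper34.TYP.Cnt

/-!
# Most permutations need many vertices
-/

set_option autoImplicit false

namespace Pool.Agent.Helper34.TYP

open Finset
open Pool.Agent.Helper49.IP (indCount IsIndPerm orders minOrder Before)

/-- some entry `k ≥ m - s + 1` is preceded by `k - 1`, and some entry `c` with
`m - s - t + 1 ≤ c ≤ m - s + 1` precedes `1` -/
def Good {m : ℕ} (s t : ℕ) (π : Equiv.Perm (Fin m)) : Prop :=
  (∃ k, m + 1 ≤ k + s ∧ k ≤ m ∧ Before π (k - 1) k) ∧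
    ∃ c, m + 1 ≤ c + s + t ∧ c + s ≤ m + 1 ∧ Before π c 1

/-- `C(m, c) ((m - s + 1) / s) ^ c` increases with `c ≤ m - s + 1` -/
theorem bin_mono' {m s : ℕ} (hs : 1 ≤ s) (hsm : s ≤ m) {c d : ℕ} (hcd : c ≤ d)
    (hd : d + s ≤ m + 1) :
    (m.choose c : ℝ) * (((m : ℝ) - s + 1) / s) ^ c ≤
      (m.choose d : ℝ) * (((m : ℝ) - s + 1) / s) ^ d := by
  have hs0 : (0 : ℝ) < s := by exact_mod_cast hs
  have hsm' : (s : ℝ) ≤ m := by exact_mod_cast hsm
  have hr : 0 ≤ ((m : ℝ) - s + 1) / s := div_nonneg (by linarith) hs0.le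
  induction d, hcd using Nat.le_induction with
  | base => exact le_rfl
  | succ d hcd ih =>
    refine (ih (by omega)).trans ?_
    have h1 : (m.choose (d + 1) : ℝ) * ((d : ℝ) + 1) = (m.choose d : ℝ) * ((m : ℝ) - d) := by
      have h2 := Nat.choose_succ_right_eq m d
      have h3 : ((m - d : ℕ) : ℝ) = (m : ℝ) - d := by
        rw [Nat.cast_sub (by omega)]
      rw [← h3]
      exact_mod_cast h2
    have h2 : (d : ℝ) + 1 + s ≤ m + 1 := by exact_mod_cast hd
    have hd0 : (0 : ℝ) ≤ d := Nat.cast_nonneg d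
    have h3 : ((d : ℝ) + 1) * s ≤ ((m : ℝ) - d) * ((m : ℝ) - s + 1) := by
      have h4 : (s : ℝ) ≤ (m : ℝ) - d := by linarith
      have h5 : (d : ℝ) + 1 ≤ (m : ℝ) - s + 1 := by linarith
      calc ((d : ℝ) + 1) * s ≤ ((m : ℝ) - s + 1) * ((m : ℝ) - d) :=
            mul_le_mul h5 h4 hs0.le (by linarith)
        _ = _ := by ring
    have h4 : (m.choose d : ℝ) ≤ (m.choose (d + 1) : ℝ) * (((m : ℝ) - s + 1) / s) := by
      rw [← mul_div_assoc, le_div_iff₀ hs0]
      have h5 : 0 < (d : ℝ) + 1 := by linarith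
      refine le_of_mul_le_mul_right ?_ h5
      calc (m.choose d : ℝ) * s * ((d : ℝ) + 1) = (m.choose d : ℝ) * (((d : ℝ) + 1) * s) := by ring
        _ ≤ (m.choose d : ℝ) * (((m : ℝ) - d) * ((m : ℝ) - s + 1)) := by gcongr
        _ = ((m.choose d : ℝ) * ((m : ℝ) - d)) * ((m : ℝ) - s + 1) := by ring
        _ = ((m.choose (d + 1) : ℝ) * ((d : ℝ) + 1)) * ((m : ℝ) - s + 1) := by rw [h1]
        _ = _ := by ring
    calc (m.choose d : ℝ) * (((m : ℝ) - s + 1) / s) ^ d ≤
          (m.choose (d + 1) : ℝ) * (((m : ℝ) - s + 1) / s) * (((m : ℝ) - s + 1) / s) ^ d := by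
            gcongr
      _ = _ := by ring

theorem before_iff {m : ℕ} {π : Equiv.Perm (Fin m)} {k l : Fin m} :
    Before π ((k : ℕ) + 1) ((l : ℕ) + 1) ↔ π.symm k < π.symm l := by
  constructor
  · rintro ⟨i, j, hij, h1, h2⟩
    have e1 : π i = k := Fin.ext (by omega)
    have e2 : π j = l := Fin.ext (by omega)
    rw [← e1, ← e2, Equiv.symm_apply_apply, Equiv.symm_apply_apply]
    exact hij
  · intro h
    exact ⟨π.symm k, π.symm l, h, by rw [Equiv.apply_symm_apply], by rw [Equiv.apply_symm_apply]⟩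

/-- the order of a good permutation -/
theorem good_bound {m s t : ℕ} (hs : 1 ≤ s) (hst : s + t + 1 ≤ m) {π : Equiv.Perm (Fin m)}
    (h : Good s t π) {n : ℕ} (hn : n ∈ orders π) :
    (m.choose (s + t - 1) : ℝ) * (((m : ℝ) - s + 1) / s) ^ (m - s - t + 1) ≤ n := by
  obtain ⟨⟨k, hk1, hk2, hk3⟩, c, hc1, hc2, hc3⟩ := h
  have hc : 1 ≤ c := by omega
  have hk : 2 ≤ k := by omega
  have h1 := pair_bound (by omega) (show k - 1 < k by omega) hk3 hc (by omega) (Or.inr hc3) hn
  rw [show k - (k - 1) = 1 by omega, pow_one, pow_one] at h1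
  have h2 : m.choose k * k = m.choose (k - 1) * (m - k + 1) := by
    have h3 := Nat.choose_succ_right_eq m (k - 1)
    rw [show k - 1 + 1 = k by omega, show m - (k - 1) = m - k + 1 by omega] at h3
    exact h3
  have hck : 0 < m.choose k := Nat.choose_pos hk2
  have h4 : m.choose c * k ^ c ≤ n * (m - k + 1) ^ c := by
    have h5 : m.choose c * k ^ c * m.choose k ^ c ≤ n * (m - k + 1) ^ c * m.choose k ^ c := by
      calc m.choose c * k ^ c * m.choose k ^ c = m.choose c * (m.choose k * k) ^ c := by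
            rw [mul_pow]
            ring
        _ = (m.choose c * m.choose (k - 1) ^ c) * (m - k + 1) ^ c := by
            rw [h2, mul_pow]
            ring
        _ ≤ (n * m.choose k ^ c) * (m - k + 1) ^ c := Nat.mul_le_mul_right _ h1
        _ = _ := by ring
    exact Nat.le_of_mul_le_mul_right h5 (pow_pos hck c)
  have hs0 : (0 : ℝ) < s := by exact_mod_cast hs
  have hm' : (s : ℝ) + t + 1 ≤ m := by exact_mod_cast hst
  have ht0 : (0 : ℝ) ≤ t := Nat.cast_nonneg t
  have h6 : (m.choose c : ℝ) * (((m : ℝ) - s + 1) / s) ^ c ≤ n := by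
    have h7 : (m.choose c : ℝ) * (((m - s + 1 : ℕ) : ℝ)) ^ c ≤ n * (s : ℝ) ^ c := by
      have h8 : m.choose c * (m - s + 1) ^ c ≤ n * s ^ c := by
        calc m.choose c * (m - s + 1) ^ c ≤ m.choose c * k ^ c :=
              Nat.mul_le_mul_left _ (Nat.pow_le_pow_left (by omega) c)
          _ ≤ n * (m - k + 1) ^ c := h4
          _ ≤ n * s ^ c := Nat.mul_le_mul_left _ (Nat.pow_le_pow_left (by omega) c)
      exact_mod_cast h8
    have h9 : ((m - s + 1 : ℕ) : ℝ) = (m : ℝ) - s + 1 := by
      rw [Nat.cast_add, Nat.cast_sub (by omega), Nat.cast_one]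
    rw [h9] at h7
    rw [div_pow, ← mul_div_assoc, div_le_iff₀ (by positivity)]
    exact h7
  refine le_trans ?_ h6
  have h7 := bin_mono' (m := m) hs (by omega) (show m - s - t + 1 ≤ c by omega) hc2
  refine le_trans (le_of_eq ?_) h7
  congr 2
  rw [← Nat.choose_symm (show m - s - t + 1 ≤ m by omega)]
  congr 1
  omega

theorem one_le_orders {m : ℕ} (hm : 1 ≤ m) {π : Equiv.Perm (Fin m)} {n : ℕ} (hn : n ∈ orders π) :
    (1 : ℝ) ≤ n := by
  obtain ⟨N, -, h9, h10, -⟩ := seq_of_orders hm hn
  have h11 := h9 1 le_rfl hm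
  rw [h10]
  have h12 : (1 : ℝ) ≤ m := by exact_mod_cast hm
  nlinarith

open Classical in
/-- the number of permutations which are not good -/
theorem card_not_good {m s t : ℕ} (hs : 1 ≤ s) (hst : s + t + 1 ≤ m) :
    ((univ.filter (fun π : Equiv.Perm (Fin m) => ¬ Good s t π)).card : ℝ) ≤
      (m.factorial : ℝ) / ((s + 1).factorial : ℝ) + (m.factorial : ℝ) / ((t : ℝ) + 2) := by
  classical
  -- the two sets of entries
  obtain ⟨A, hA⟩ : ∃ A : Finset (Fin m), A = univ.filter fun x : Fin m => m ≤ (x : ℕ) + 1 + s :=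
    ⟨_, rfl⟩
  obtain ⟨B, hB⟩ : ∃ B : Finset (Fin m), B = insert (⟨0, by omega⟩ : Fin m)
    (univ.filter fun x : Fin m => m ≤ (x : ℕ) + s + t ∧ (x : ℕ) + s ≤ m) := ⟨_, rfl⟩
  have hAc : A.card = s + 1 := by
    have h1 : A.map Fin.valEmbedding = Finset.Ico (m - s - 1) m := by
      ext x
      rw [mem_map, Finset.mem_Ico, hA]
      constructor
      · rintro ⟨y, hy, rfl⟩
        have h2 := (mem_filter.1 hy).2
        have h3 := y.2
        simp only [Fin.valEmbedding_apply]
        omega
      · rintro ⟨h2, h3⟩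
        exact ⟨⟨x, h3⟩, mem_filter.2 ⟨mem_univ _, by simp only; omega⟩, rfl⟩
    rw [← card_map Fin.valEmbedding, h1, Nat.card_Ico]
    omega
  have hBc : B.card = t + 2 := by
    have hF : (univ.filter fun x : Fin m =>
        m ≤ (x : ℕ) + s + t ∧ (x : ℕ) + s ≤ m).card = t + 1 := by
      have h1 : (univ.filter fun x : Fin m => m ≤ (x : ℕ) + s + t ∧ (x : ℕ) + s ≤ m).map
          Fin.valEmbedding = Finset.Ico (m - s - t) (m - s + 1) := by
        ext x
        rw [mem_map, Finset.mem_Ico]
        constructor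
        · rintro ⟨y, hy, rfl⟩
          have h2 := (mem_filter.1 hy).2
          have h3 := y.2
          simp only [Fin.valEmbedding_apply]
          omega
        · rintro ⟨h2, h3⟩
          exact ⟨⟨x, by omega⟩, mem_filter.2 ⟨mem_univ _, by simp only; omega⟩, rfl⟩
      rw [← card_map Fin.valEmbedding, h1, Nat.card_Ico]
      omega
    rw [hB, card_insert_of_notMem, hF]
    intro h1
    have h2 := (mem_filter.1 h1).2
    simp only at h2
    omega
  have hsub : univ.filter (fun π : Equiv.Perm (Fin m) => ¬ Good s t π) ⊆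
      univ.filter (fun π : Equiv.Perm (Fin m) => Decr A π) ∪
        univ.filter (fun π : Equiv.Perm (Fin m) => First B (⟨0, by omega⟩ : Fin m) π) := by
    intro π hπ
    have hπ' := (mem_filter.1 hπ).2
    rw [mem_union, mem_filter, mem_filter]
    by_contra hcon
    rw [not_or, not_and, not_and] at hcon
    obtain ⟨hc1, hc2⟩ := hcon
    have hc1' := hc1 (mem_univ _)
    have hc2' := hc2 (mem_univ _)
    apply hπ'
    refine ⟨?_, ?_⟩
    · by_contra h1
      push Not at h1
      apply hc1'
      -- decreasing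
      have hstep : ∀ d : ℕ, ∀ a b : Fin m, a ∈ A → (b : ℕ) = a + d + 1 → π.symm b < π.symm a := by
        intro d
        induction d with
        | zero =>
          intro a b ha hab
          have ha' : m ≤ (a : ℕ) + 1 + s := by
            rw [hA] at ha
            exact (mem_filter.1 ha).2
          have h2 := h1 ((b : ℕ) + 1) (by omega) (by omega)
          rw [show (b : ℕ) + 1 - 1 = (a : ℕ) + 1 by omega, before_iff, not_lt] at h2
          refine lt_of_le_of_ne h2 fun h3 => ?_
          have h4 := congrArg Fin.val (π.symm.injective h3)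
          omega
        | succ d ih =>
          intro a b ha hab
          have hlt : (a : ℕ) + 1 < m := by omega
          have h2 := ih ⟨(a : ℕ) + 1, hlt⟩ b (by
            rw [hA, mem_filter] at ha ⊢
            refine ⟨mem_univ _, ?_⟩
            have := ha.2
            simp only
            omega) (by
            simp only
            omega)
          have ha' : m ≤ (a : ℕ) + 1 + s := by
            rw [hA] at ha
            exact (mem_filter.1 ha).2
          have h3 := h1 ((a : ℕ) + 1 + 1) (by omega) (by omega)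
          have h4 : ¬ π.symm a < π.symm ⟨(a : ℕ) + 1, hlt⟩ := by
            rw [← before_iff]
            simpa using h3
          have h5 : π.symm ⟨(a : ℕ) + 1, hlt⟩ < π.symm a := by
            refine lt_of_le_of_ne (not_lt.1 h4) fun h6 => ?_
            have h7 := congrArg Fin.val (π.symm.injective h6)
            simp only at h7
            omega
          exact h2.trans h5
      intro a ha b hb hab
      exact hstep ((b : ℕ) - a - 1) a b ha (by
        have := Fin.lt_def.1 hab
        omega)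
    · by_contra h1
      push Not at h1
      apply hc2'
      intro x hx hx0
      rw [hB, mem_insert] at hx
      rcases hx with hx | hx
      · exact absurd hx hx0
      · obtain ⟨h2, h3⟩ := (mem_filter.1 hx).2
        have h4 := h1 ((x : ℕ) + 1) (by omega) (by omega)
        have h5 : ¬ π.symm x < π.symm ⟨0, by omega⟩ := by
          rw [← before_iff]
          simpa using h4
        refine lt_of_le_of_ne (not_lt.1 h5) fun h6 => ?_
        exact hx0 (π.symm.injective h6).symm
  have h1 := card_decr A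
  have h2 := card_first (B := B) (a₀ := (⟨0, by omega⟩ : Fin m))
  rw [hAc] at h1
  rw [hBc] at h2
  have h3 := (card_le_card hsub).trans (card_union_le _ _)
  have h4 : ((univ.filter (fun π : Equiv.Perm (Fin m) => Decr A π)).card : ℝ) ≤
      (m.factorial : ℝ) / ((s + 1).factorial : ℝ) := by
    rw [le_div_iff₀ (by exact_mod_cast Nat.factorial_pos _), mul_comm]
    exact_mod_cast h1
  have h5 : ((univ.filter (fun π : Equiv.Perm (Fin m) =>
      First B (⟨0, by omega⟩ : Fin m) π)).card : ℝ) ≤ (m.factorial : ℝ) / ((t : ℝ) + 2) := by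
    rw [le_div_iff₀ (by positivity), mul_comm]
    exact_mod_cast h2
  calc ((univ.filter (fun π : Equiv.Perm (Fin m) => ¬ Good s t π)).card : ℝ)
      ≤ ((univ.filter (fun π : Equiv.Perm (Fin m) => Decr A π)).card : ℝ) +
        ((univ.filter (fun π : Equiv.Perm (Fin m) =>
          First B (⟨0, by omega⟩ : Fin m) π)).card : ℝ) := by exact_mod_cast h3
    _ ≤ _ := add_le_add h4 h5

/-- most permutations need many vertices: two parameters -/
theorem typical {m s t : ℕ} (hs : 1 ≤ s) (hst : s + t + 1 ≤ m) :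
    (1 - 1 / ((s + 1).factorial : ℝ) - 1 / ((t : ℝ) + 2)) * (m.factorial : ℝ) ≤
      ({π : Equiv.Perm (Fin m) | ∀ n ∈ orders π, (m.choose (s + t - 1) : ℝ) *
        (((m : ℝ) - s + 1) / s) ^ (m - s - t + 1) ≤ n}.ncard : ℝ) := by
  classical
  have h1 := card_not_good (m := m) (s := s) (t := t) hs hst
  have h2 : (univ.filter (fun π : Equiv.Perm (Fin m) => Good s t π)).card +
      (univ.filter (fun π : Equiv.Perm (Fin m) => ¬ Good s t π)).card = m.factorial := by
    rw [card_filter_add_card_filter_not, card_univ, Fintype.card_perm, Fintype.card_fin]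
  have h3 : (univ.filter (fun π : Equiv.Perm (Fin m) => Good s t π)).card ≤
      {π : Equiv.Perm (Fin m) | ∀ n ∈ orders π, (m.choose (s + t - 1) : ℝ) *
        (((m : ℝ) - s + 1) / s) ^ (m - s - t + 1) ≤ n}.ncard := by
    rw [← Set.ncard_coe_finset]
    refine Set.ncard_le_ncard ?_ (Set.toFinite _)
    intro π hπ n hn
    have hπ' : Good s t π := by simpa using hπ
    exact good_bound hs hst hπ' hn
  have h4 : ((univ.filter (fun π : Equiv.Perm (Fin m) => Good s t π)).card : ℝ) +
      ((univ.filter (fun π : Equiv.Perm (Fin m) => ¬ Good s t π)).card : ℝ) = m.factorial := by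
    exact_mod_cast h2
  have h5 : ((univ.filter (fun π : Equiv.Perm (Fin m) => Good s t π)).card : ℝ) ≤
      ({π : Equiv.Perm (Fin m) | ∀ n ∈ orders π, (m.choose (s + t - 1) : ℝ) *
        (((m : ℝ) - s + 1) / s) ^ (m - s - t + 1) ≤ n}.ncard : ℝ) := by exact_mod_cast h3
  refine le_trans ?_ h5
  have h6 : (1 - 1 / ((s + 1).factorial : ℝ) - 1 / ((t : ℝ) + 2)) * (m.factorial : ℝ) =
      (m.factorial : ℝ) - ((m.factorial : ℝ) / ((s + 1).factorial : ℝ) +
        (m.factorial : ℝ) / ((t : ℝ) + 2)) := by ring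
  rw [h6]
  linarith

/-- the general upper bound -/
theorem minOrder_le {m : ℕ} (hm : 2 ≤ m) (π : Equiv.Perm (Fin m)) : minOrder π ≤ m ^ m := by
  obtain ⟨hL, -, hA, hB, -, -⟩ := Pool.Agent.Helper49.IP.main m hm π
  rcases Pool.Agent.Helper49.IP.before_total (π := π) (k := m - 1) (l := m) (by omega) (by omega)
    (by omega) le_rfl (by omega) with h | h
  · have h1 := hL.2 (Pool.Agent.Helper49.IP.up_A hm h (c := 0) (by omega))
    refine h1.trans ?_
    split_ifs
    · exact Nat.sub_le _ _
    · exact le_rfl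
  · have h1 := hB h (m - 1) (by omega) (Or.inl rfl)
    refine h1.trans ?_
    calc m * (m - 1) ^ (m - 1) ≤ m * m ^ (m - 1) :=
          Nat.mul_le_mul_left _ (Nat.pow_le_pow_left (by omega) _)
      _ = m ^ m := by
          rw [← pow_succ']
          congr 1
          omega

/-- all but a small proportion of the permutations need between `(m / C) ^ m` and `m ^ m` vertices -/
theorem typical_pow {m s : ℕ} (hm : 2 ≤ m) (hs : 1 ≤ s) :
    (1 - 1 / ((s + 1).factorial : ℝ) - 1 / ((s : ℝ) + 2)) * (m.factorial : ℝ) ≤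
      ({π : Equiv.Perm (Fin m) | ((m : ℝ) / (2 * s * 4 ^ s)) ^ m ≤ minOrder π ∧
        minOrder π ≤ m ^ m}.ncard : ℝ) := by
  classical
  have hs0 : (1 : ℝ) ≤ s := by exact_mod_cast hs
  have h4s : (1 : ℝ) ≤ 4 ^ s := one_le_pow₀ (by norm_num)
  have hm0 : (2 : ℝ) ≤ m := by exact_mod_cast hm
  by_cases hst : s + s + 2 ≤ m
  · refine (typical hs (show s + s + 1 ≤ m by omega)).trans ?_
    have h1 : {π : Equiv.Perm (Fin m) | ∀ n ∈ orders π, (m.choose (s + s - 1) : ℝ) *
        (((m : ℝ) - s + 1) / s) ^ (m - s - s + 1) ≤ n}.ncard ≤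
        {π : Equiv.Perm (Fin m) | ((m : ℝ) / (2 * s * 4 ^ s)) ^ m ≤ minOrder π ∧
          minOrder π ≤ m ^ m}.ncard := by
      refine Set.ncard_le_ncard ?_ (Set.toFinite _)
      intro π hπ
      have h2 := hπ _ (Pool.Agent.Helper49.IP.isLeast_minOrder (π := π) hm).1
      refine ⟨?_, minOrder_le hm π⟩
      refine le_trans ?_ h2
      have hsm : 2 * (s : ℝ) + 2 ≤ m := by
        have : ((s + s + 2 : ℕ) : ℝ) ≤ m := by exact_mod_cast hst
        push_cast at this
        linarith
      have h3 : (m : ℝ) / (2 * s) ≤ ((m : ℝ) - s + 1) / s := by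
        rw [div_le_div_iff₀ (by positivity) (by positivity)]
        nlinarith
      have h4 : 1 ≤ (m : ℝ) / (2 * s) := by
        rw [one_le_div (by positivity)]
        linarith
      have h5 : ((m : ℝ) / (2 * s)) ^ (m - s - s) ≤ (m.choose (s + s - 1) : ℝ) *
          (((m : ℝ) - s + 1) / s) ^ (m - s - s + 1) := by
        have hC : (1 : ℝ) ≤ (m.choose (s + s - 1) : ℝ) := by
          exact_mod_cast Nat.choose_pos (show s + s - 1 ≤ m by omega)
        calc ((m : ℝ) / (2 * s)) ^ (m - s - s) ≤ (((m : ℝ) - s + 1) / s) ^ (m - s - s) := by gcongr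
          _ ≤ (((m : ℝ) - s + 1) / s) ^ (m - s - s + 1) :=
              pow_le_pow_right₀ (h4.trans h3) (by omega)
          _ ≤ _ := le_mul_of_one_le_left (pow_nonneg (zero_le_one.trans (h4.trans h3)) _) hC
      refine le_trans ?_ h5
      have h6 : ((m : ℝ) / (2 * s)) ^ (s + s) ≤ (4 ^ s : ℝ) ^ m := by
        have h7 : (m : ℝ) / (2 * s) ≤ 2 ^ m := by
          have h8 : (m : ℝ) ≤ 2 ^ m := by exact_mod_cast (Nat.lt_two_pow_self (n := m)).le
          refine le_trans ?_ h8
          exact div_le_self (by linarith) (by linarith)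
        calc ((m : ℝ) / (2 * s)) ^ (s + s) ≤ (2 ^ m : ℝ) ^ (s + s) := by gcongr
          _ = (4 ^ s : ℝ) ^ m := by
            rw [← pow_mul, ← pow_mul, show (4 : ℝ) = 2 ^ 2 by norm_num, ← pow_mul]
            congr 1
            ring
      have h7 : ((m : ℝ) / (2 * s * 4 ^ s)) ^ m = ((m : ℝ) / (2 * s)) ^ m / (4 ^ s : ℝ) ^ m := by
        rw [← div_pow, div_div]
      rw [h7, div_le_iff₀ (by positivity)]
      calc ((m : ℝ) / (2 * s)) ^ m = ((m : ℝ) / (2 * s)) ^ (m - s - s) *
            ((m : ℝ) / (2 * s)) ^ (s + s) := by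
            rw [← pow_add]
            congr 1
            omega
        _ ≤ _ := by gcongr
    exact_mod_cast h1
  · -- all permutations
    have h1 : {π : Equiv.Perm (Fin m) | ((m : ℝ) / (2 * s * 4 ^ s)) ^ m ≤ minOrder π ∧
        minOrder π ≤ m ^ m} = Set.univ := by
      refine Set.eq_univ_of_forall fun π => ⟨?_, minOrder_le hm π⟩
      refine le_trans ?_ (one_le_orders (by omega)
        (Pool.Agent.Helper49.IP.isLeast_minOrder (π := π) hm).1)
      refine pow_le_one₀ (by positivity) ?_
      rw [div_le_one (by positivity)]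
      have h2 : (m : ℝ) ≤ 2 * s + 1 := by
        have : m ≤ s + s + 1 := by omega
        have h3 : (m : ℝ) ≤ ((s + s + 1 : ℕ) : ℝ) := by exact_mod_cast this
        push_cast at h3
        linarith
      have h3 : (4 : ℝ) ≤ 4 ^ s := by
        calc (4 : ℝ) = 4 ^ 1 := by norm_num
          _ ≤ 4 ^ s := pow_le_pow_right₀ (by norm_num) hs
      nlinarith
    rw [h1, Set.ncard_univ, Nat.card_eq_fintype_card, Fintype.card_perm, Fintype.card_fin]
    have h2 : (0 : ℝ) ≤ m.factorial := Nat.cast_nonneg _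
    have h3 : (0 : ℝ) ≤ 1 / ((s + 1).factorial : ℝ) := by positivity
    have h4 : (0 : ℝ) ≤ 1 / ((s : ℝ) + 2) := by positivity
    nlinarith

end Pool.Agent.Helper34.TYP
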